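import Pool.Agent.Helper72.EP.Spec2

/-! # Module ARC: cutting a cycle at the vertices of a set -/

namespace ErdPos

open Finset

lemma arc_path {V : Type} [DecidableEq V] {G : SimpleGraph V} (hP : PApi G)
    (C' : Finset V) (w : Sym2 V → ZMod 2) :
    ∀ (n : ℕ) (a b : V) (S : Finset V) (T : Finset (Sym2 V)), S.card ≤ n → Pth G a b S T →
      a ∈ C' → (b ∈ C' ∨ Ad G b C') → (∀ e ∈ T, (∃ v ∈ C', v ∈ e) → w e = 0) →
      ∑ e ∈ T, w e = 1 →
      ∃ y y' S1 T1, Pth G y y' S1 T1 ∧ S1 ⊆ S \ C' ∧ T1 ⊆ T ∧ Ad G y C' ∧ Ad G y' C' ∧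
        ∑ e ∈ T1, w e = 1 := by
  intro n
  induction n with
  | zero =>
    intro a b S T hS hp
    exfalso
    have := (hP.ends a b S T hp).1
    have : 0 < S.card := Finset.card_pos.2 ⟨a, this⟩
    omega
  | succ n ih =>
    intro a b S T hS hp ha hb hw hsum
    by_cases hab : a = b
    · subst hab
      have := (hP.triv a S T hp).2
      subst this
      simp at hsum
    obtain ⟨x, S', T', hax, hp', haS', hSe, hTe, hnT⟩ := hP.step a b S T hp hab
    have hwa : w s(a, x) = 0 := by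
      apply hw
      · rw [hTe]; exact Finset.mem_insert_self _ _
      · exact ⟨a, ha, Sym2.mem_mk_left a x⟩
    have hsum' : ∑ e ∈ T', w e = 1 := by
      rw [hTe, Finset.sum_insert hnT, hwa, zero_add] at hsum
      exact hsum
    have hSS : S' ⊆ S := by rw [hSe]; exact Finset.subset_insert _ _
    have hTT : T' ⊆ T := by rw [hTe]; exact Finset.subset_insert _ _
    have hcS : S'.card ≤ n := by
      rw [hSe, Finset.card_insert_of_notMem haS'] at hS
      omega
    have hw' : ∀ e ∈ T', (∃ v ∈ C', v ∈ e) → w e = 0 := fun e he => hw e (hTT he)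
    by_cases hx : x ∈ C'
    · obtain ⟨y, y', S1, T1, h1, h2, h3, h4⟩ := ih x b S' T' hcS hp' hx hb hw' hsum'
      exact ⟨y, y', S1, T1, h1, h2.trans (Finset.sdiff_subset_sdiff hSS subset_rfl),
        h3.trans hTT, h4⟩
    by_cases hne : (S' ∩ C').Nonempty
    · obtain ⟨z, hz, S1, T1, S2, T2, hp1, hp2, hS1, hS12, hSu, hTd, hTu⟩ :=
        hP.first x b S' T' C' hp' hne
      have hT1 : T1 ⊆ T' := by rw [← hTu]; exact Finset.subset_union_left
      have hT2 : T2 ⊆ T' := by rw [← hTu]; exact Finset.subset_union_right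
      have hS1' : S1 ⊆ S' := by rw [← hSu]; exact Finset.subset_union_left
      have hS2' : S2 ⊆ S' := by rw [← hSu]; exact Finset.subset_union_right
      have hs12 : ∑ e ∈ T1, w e + ∑ e ∈ T2, w e = 1 := by
        rw [← Finset.sum_union hTd, hTu, hsum']
      by_cases hs2 : ∑ e ∈ T2, w e = 1
      · obtain ⟨y, y', S3, T3, h1, h2, h3, h4⟩ := ih z b S2 T2
          ((Finset.card_le_card hS2').trans hcS) hp2 hz hb (fun e he => hw' e (hT2 he)) hs2
        exact ⟨y, y', S3, T3, h1,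
          h2.trans (Finset.sdiff_subset_sdiff (hS2'.trans hSS) subset_rfl),
          h3.trans (hT2.trans hTT), h4⟩
      have hs1 : ∑ e ∈ T1, w e = 1 := by
        have key : ∀ p q : ZMod 2, p + q = 1 → q ≠ 1 → p = 1 := by decide
        exact key _ _ hs12 hs2
      have hzx : z ≠ x := fun h => hx (h ▸ hz)
      obtain ⟨u, S3, T3, hzu, hp3, hzS3, hS3, hT3, hnT3⟩ := hP.step z x S1 T1 hp1.symm hzx
      have hwz : w s(z, u) = 0 := by
        apply hw' _ (hT1 ?_) ⟨z, hz, Sym2.mem_mk_left z u⟩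
        rw [hT3]; exact Finset.mem_insert_self _ _
      have hs3 : ∑ e ∈ T3, w e = 1 := by
        rw [hT3, Finset.sum_insert hnT3, hwz, zero_add] at hs1
        exact hs1
      refine ⟨u, x, S3, T3, hp3, ?_, ?_, ⟨z, hz, hzu.symm⟩, ⟨a, ha, hax.symm⟩, hs3⟩
      · intro v hv
        have hv1 : v ∈ S1 := by rw [hS3]; exact Finset.mem_insert_of_mem hv
        rw [Finset.mem_sdiff]
        refine ⟨hSS (hS1' hv1), fun hvC => ?_⟩
        have : v ∈ S1 ∩ C' := Finset.mem_inter.2 ⟨hv1, hvC⟩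
        rw [hS1, Finset.mem_singleton] at this
        exact hzS3 (this ▸ hv)
      · refine Finset.Subset.trans ?_ (hT1.trans hTT)
        rw [hT3]; exact Finset.subset_insert _ _
    · have hdis : ∀ v ∈ S', v ∉ C' := fun v hv hvC => hne ⟨v, Finset.mem_inter.2 ⟨hv, hvC⟩⟩
      have hbS' := (hP.ends x b S' T' hp').2
      have hbC : Ad G b C' := by
        rcases hb with hb | hb
        · exact absurd hb (hdis b hbS')
        · exact hb
      exact ⟨x, b, S', T', hp', fun v hv => Finset.mem_sdiff.2 ⟨hSS hv, hdis v hv⟩, hTT,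
        ⟨a, ha, hax.symm⟩, hbC, hsum'⟩

theorem st_ARC (h1 : ST_PA) (h2 : ST_CA) : ST_ARC := by
  intro V _ _ G S T C' w hcyc hne hw hsum
  obtain ⟨v, hv⟩ := hne
  obtain ⟨hvS, hvC⟩ := Finset.mem_inter.1 hv
  have hdeg := (h2 V G).deg S T v hcyc hvS
  have hpos : 0 < (T.filter (fun e => v ∈ e)).card := by rw [hdeg]; norm_num
  obtain ⟨e, he⟩ := Finset.card_pos.1 hpos
  obtain ⟨heT, hve⟩ := Finset.mem_filter.1 he
  obtain ⟨b, rfl⟩ := Sym2.mem_iff_exists.1 hve
  obtain ⟨hvb, hadj, -, hbS, hp⟩ := (h2 V G).edge v b S T hcyc heT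
  have hwe : w s(v, b) = 0 := hw _ heT ⟨v, hvC, hve⟩
  have hs : ∑ e ∈ T.erase s(v, b), w e = 1 := by
    rw [← Finset.add_sum_erase T _ heT, hwe, zero_add] at hsum
    exact hsum
  obtain ⟨y, y', S1, T1, h3, h4, h5, h6⟩ := arc_path (h1 V G) C' w S.card v b S
    (T.erase s(v, b)) le_rfl hp hvC (Or.inr ⟨v, hvC, hadj.symm⟩)
    (fun e he => hw e (Finset.mem_of_mem_erase he)) hs
  exact ⟨y, y', S1, T1, h3, h4, h5.trans (Finset.erase_subset _ _), h6⟩

end ErdPos
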