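import Pool.Agent.Helper72.EP.Spec2

/-! # Module LOC: the local hypothesis of the engine holds -/

namespace ErdPos

open Finset

section
variable {E X : Type} {V : Type}

theorem loc_vl_apply (γ : Sym2 V → E →₀ ℤ) (T : Finset (Sym2 V)) (f : E) :
    vl γ T f = ∑ e ∈ T, γ e f := by
  simp [vl, Finsupp.finsetSum_apply]

open Classical in
/-- the parity of a `0/1` vector at `x` -/
theorem loc_par (inc : E → X → Prop) (x : X) (δ : Finset E) (hδ : ∀ e, inc e x ↔ e ∈ δ)
    (g : E →₀ ℤ) (hg : ∀ e, g e = 0 ∨ g e = 1) :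
    ((∑ f ∈ δ, g f : ℤ) : ZMod 2) = par inc g.support x := by
  have h1 : ∑ f ∈ δ, g f = ((g.support.filter (fun e => inc e x)).card : ℤ) := by
    have h2 : g.support.filter (fun e => inc e x) = δ.filter (fun e => g e = 1) := by
      ext e
      simp only [Finset.mem_filter, Finsupp.mem_support_iff, hδ]
      constructor
      · rintro ⟨h3, h4⟩
        exact ⟨h4, (hg e).resolve_left h3⟩
      · rintro ⟨h3, h4⟩
        exact ⟨by rw [h4]; exact one_ne_zero, h3⟩
    rw [h2, Finset.card_filter]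
    push_cast
    refine Finset.sum_congr rfl fun e _ => ?_
    rcases hg e with h | h
    · simp [h]
    · simp [h]
  rw [h1]
  unfold par
  push_cast
  rfl

theorem loc_zmod (z : ZMod 2) (h : z ≠ 0) : z = 1 := by
  revert h
  revert z
  decide

end

theorem st_LOC (h1 : ST_LOC0) (h2 : ST_CER3) (h3 : ST_CER4) (h4 : ST_ZO) (h5 : ST_CER5)
    (h6 : ST_CONS) (h7 : ST_CA) : ST_LOC := by
  classical
  obtain ⟨h, hh⟩ := h6
  refine ⟨h, ?_⟩
  intro V _ _ E X G γ inc 𝒟 hsys k C hC hPk hHt hHav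
  set F := FA G γ inc 𝒟 with hF
  change LC G F C
  have capi := h7 V G
  have hctx : Ctx G F C := ⟨hC, hHav, fun M hM => by
    obtain ⟨T, hT, _⟩ := hM
    exact capi.conn M T hT⟩
  have hwild : ∀ S T, Cyc G S T → vl γ T ∉ Es inc → F S := fun S T hS hT =>
    ⟨T, hS, Or.inl hT⟩
  rcases h1 V G F C hctx (fun M hM => by
    obtain ⟨T, hT, _⟩ := hM
    exact ⟨T, hT⟩) with hl | hgood
  · exact hl
  -- bad hull paths
  by_cases hbad : ∃ f A u v S T, HP G F C A u v S T ∧ ¬ (vl γ T f = 0 ∨ vl γ T f = 1)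
  · obtain ⟨f, A, u, v, S, T, hHP, hne⟩ := hbad
    refine h2 V G F C hctx (fun e => γ e f) ?_ A u v S T hHP ?_
    · intro S' T' hc hn
      apply hwild S' T' hc
      intro hE
      apply hn
      rw [← loc_vl_apply]
      exact hE.1 f
    · rw [← loc_vl_apply]
      exact hne
  push Not at hbad
  have h01 : ∀ A u v S T, HP G F C A u v S T → ∀ f, vl γ T f = 0 ∨ vl γ T f = 1 := by
    intro A u v S T hHP f
    by_contra hcon
    rw [not_or] at hcon
    have := hbad f A u v S T hHP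
    tauto
  -- conflicts
  by_cases hconf : ∃ f A u v S T A' u' v' S' T', HP G F C A u v S T ∧
      HP G F C A' u' v' S' T' ∧ vl γ T f = 1 ∧ vl γ T' f = 1 ∧ A ≠ A'
  · obtain ⟨f, A, u, v, S, T, A', u', v', S', T', hHP, hHP', e1, e2, hne⟩ := hconf
    refine h3 V G F C hctx (fun e => γ e f) ?_ ?_ A u v S T A' u' v' S' T' hne hHP hHP' ?_ ?_
    · intro S' T' hc hn
      apply hwild S' T' hc
      intro hE
      apply hn
      rw [← loc_vl_apply]
      exact hE.1 f
    · intro A u v S T hHP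
      rw [← loc_vl_apply]
      rcases h01 A u v S T hHP f with h | h <;> omega
    · rw [← loc_vl_apply]
      exact e1
    · rw [← loc_vl_apply]
      exact e2
  have hdisj : ∀ A u v S T A' u' v' S' T', HP G F C A u v S T →
      HP G F C A' u' v' S' T' → ∀ f, vl γ T f = 1 → vl γ T' f = 1 → A = A' := by
    intro A u v S T A' u' v' S' T' hHP hHP' f e1 e2
    by_contra hne
    exact hconf ⟨f, A, u, v, S, T, A', u', v', S', T', hHP, hHP', e1, e2, hne⟩
  have hGC : ∀ M T, Cyc G M T → vl γ T ∈ AS inc 𝒟 → M ⊆ C → GC G F C M T := by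
    intro M T hc hA hM
    obtain ⟨g1, g2⟩ := hgood M ⟨T, hc, hA⟩ hM
    exact ⟨hc, hM, g1, g2⟩
  have hZO : ∀ S T, GC G F C S T → ∀ f, vl γ T f = 0 ∨ vl γ T f = 1 := by
    intro S T hG f
    rw [loc_vl_apply]
    refine h4 V G F C hctx (fun e => γ e f) ?_ ?_ S T hG
    · intro A u v S T hHP
      rw [← loc_vl_apply]
      exact h01 A u v S T hHP f
    · intro A u v S T A' u' v' S' T' hHP hHP' e1 e2
      rw [← loc_vl_apply] at e1 e2
      exact hdisj A u v S T A' u' v' S' T' hHP hHP' f e1 e2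
  -- wild cycles
  by_cases hw : ∃ S T, Cyc G S T ∧ S ⊆ C ∧ vl γ T ∉ Es inc
  · obtain ⟨S, T, hc, hSC, hE⟩ := hw
    have hG : GC G F C S T := hGC S T hc (Or.inl hE) hSC
    have hz := hZO S T hG
    have hx : ∃ x, par inc (vl γ T).support x ≠ 0 := by
      by_contra hcon
      push Not at hcon
      exact hE ⟨hz, hcon⟩
    obtain ⟨x, hx⟩ := hx
    obtain ⟨δ, hδc, hδ⟩ := hsys.six x
    let p : Sym2 V → ZMod 2 := fun e => ((∑ f ∈ δ, γ e f : ℤ) : ZMod 2)
    have hp : ∀ T : Finset (Sym2 V), ∑ e ∈ T, p e = ((∑ f ∈ δ, vl γ T f : ℤ) : ZMod 2) := by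
      intro T
      have : (∑ f ∈ δ, vl γ T f : ℤ) = ∑ e ∈ T, ∑ f ∈ δ, γ e f := by
        simp only [loc_vl_apply]
        exact Finset.sum_comm
      rw [this]
      simp only [p]
      push_cast
      rfl
    let H : Finset (Finset V) := univ.filter (fun A => ∃ f ∈ δ, ∃ u v S T,
      HP G F C A u v S T ∧ vl γ T f = 1)
    have hHmem : ∀ A, A ∈ H ↔ ∃ f ∈ δ, ∃ u v S T, HP G F C A u v S T ∧ vl γ T f = 1 := by
      intro A
      simp [H]
    have hHc : H.card ≤ 6 := by
      refine le_trans ?_ hδc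
      rcases H.eq_empty_or_nonempty with hemp | ⟨A0, hA0⟩
      · rw [hemp]
        simp
      have hne : Nonempty E := by
        obtain ⟨f, _⟩ := (hHmem A0).1 hA0
        exact ⟨f⟩
      have hch : ∀ A ∈ H, ∃ f ∈ δ, ∃ u v S T, HP G F C A u v S T ∧ vl γ T f = 1 := fun A hA =>
        (hHmem A).1 hA
      choose! c hc1 hc2 using hch
      refine Finset.card_le_card_of_injOn c (fun A hA => hc1 A hA) ?_
      intro A hA A' hA' heq
      obtain ⟨u, v, S, T, hHP, e1⟩ := hc2 A hA
      obtain ⟨u', v', S', T', hHP', e2⟩ := hc2 A' hA'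
      rw [← heq] at e2
      exact hdisj A u v S T A' u' v' S' T' hHP hHP' _ e1 e2
    refine h5 V G F C hctx H p hHc ?_ ?_ ?_ S T hG ?_
    · intro A hA
      obtain ⟨f, _, u, v, S, T, hHP, _⟩ := (hHmem A).1 hA
      exact hHP.1
    · intro A u v S T hHP hA
      rw [hp]
      have : ∑ f ∈ δ, vl γ T f = 0 := by
        apply Finset.sum_eq_zero
        intro f hf
        rcases h01 A u v S T hHP f with h | h
        · exact h
        · exact absurd ((hHmem A).2 ⟨f, hf, u, v, S, T, hHP, h⟩) hA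
      rw [this]
      simp
    · intro S T hc hs
      apply hwild S T hc
      intro hE
      rw [hp, loc_par inc x δ hδ _ hE.1, hE.2 x] at hs
      exact absurd hs (by decide)
    · rw [hp, loc_par inc x δ hδ _ hz]
      exact loc_zmod _ hx
  · exfalso
    have hnw : ∀ S T, Cyc G S T → S ⊆ C → vl γ T ∈ Es inc := by
      intro S T hc hS
      by_contra hcon
      exact hw ⟨S, T, hc, hS, hcon⟩
    have hcons : Cons G γ inc 𝒟 C := ⟨hctx, hGC, h01, hdisj, hnw⟩
    rcases hh V E X G γ inc 𝒟 C hsys hcons k with h | h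
    · exact hPk h
    · exact hHt h

end ErdPos
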