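import Pool.Agent.Helper72.EP.Spec2

/-! # Module LOC0: the cases of type 0 -/

namespace ErdPos

open Finset

theorem st_LOC0 (h1 : ST_CA) (_h2 : ST_ROB) (h3 : ST_HUL) : ST_LOC0 := by
  intro V _ _ G F C hctx hcyc
  by_cases hA : ∃ M A, F M ∧ M ⊆ A ∧ Hul G F C A
  · left
    obtain ⟨M, A, hM, hMA, hul⟩ := hA
    obtain ⟨hAC, -, -, -, hcard, hZA, -, -, hdis, -⟩ := (h3 V G F C hctx).2 A hul
    refine ⟨Zt G C A, hZA.trans hAC, by omega, ?_⟩
    intro C' hC' hconn hHas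
    have hd : Disjoint C' (Zt G C A) := by
      rw [Finset.disjoint_left]
      intro x hx
      exact (Finset.mem_sdiff.1 (hC' hx)).2
    have hd2 := hdis C' (hC'.trans Finset.sdiff_subset) hconn hHas hd
    refine ⟨M, [], ?_, List.nodup_nil, by simp, M, hM, subset_rfl⟩
    intro x hx
    rw [Finset.mem_sdiff]
    exact ⟨hAC (hMA hx), fun hxC => (Finset.disjoint_left.1 hd2 hxC) (hMA hx)⟩
  by_cases hB : ∃ M x g, F M ∧ M ⊆ C ∧ x ∈ M ∧ g ∈ C ∧ g ≠ x ∧ x ∉ bt G F C {g}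
  · left
    obtain ⟨M, x, g, hM, hMC, hxM, hgC, hgx, hxb⟩ := hB
    obtain ⟨T, hT⟩ := hcyc M hM
    have hce : Conn G (M.erase g) := (h1 V G).erase M T g hT
    have hbt : IsBt G F C {g} (bt G F C {g}) := hctx.hav.isBt (by simp)
    have hsub : M.erase g ⊆ C \ {g} := by
      intro y hy
      rw [Finset.mem_erase] at hy
      rw [Finset.mem_sdiff, Finset.mem_singleton]
      exact ⟨hMC hy.2, hy.1⟩
    have hxe : x ∈ M.erase g := Finset.mem_erase.2 ⟨hgx.symm, hxM⟩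
    have hdis : ∀ y ∈ M.erase g, y ∉ bt G F C {g} := by
      intro y hy hyb
      exact hxb (hbt.subset_of_mem hce hsub hy hyb hxe)
    refine ⟨{g}, by simpa using hgC, by simp, ?_⟩
    intro C' hC' hconn hHas
    have hCb : C' ⊆ bt G F C {g} := hbt.2.2.2 C' hC' hconn hHas
    refine ⟨M, [], ?_, List.nodup_nil, by simp, M, hM, subset_rfl⟩
    intro y hy
    rw [Finset.mem_sdiff]
    refine ⟨hMC hy, fun hyC => ?_⟩
    by_cases hyg : y = g
    · have := (Finset.mem_sdiff.1 (hC' hyC)).2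
      rw [Finset.mem_singleton] at this
      exact this hyg
    · exact hdis y (Finset.mem_erase.2 ⟨hyg, hy⟩) (hCb hyC)
  · right
    intro M hM hMC
    refine ⟨fun x hx => ⟨hMC hx, fun g hg hgx => ?_⟩, fun A hul hsub => hA ⟨M, A, hM, hsub, hul⟩⟩
    by_contra hcon
    exact hB ⟨M, x, g, hM, hMC, hx, hg, hgx, hcon⟩

end ErdPos
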